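import Pool.Agent.H90.ZT.Defs

/-!
# Cycles in computations without zero tests
-/

set_option autoImplicit false

namespace Pool.Agent.H90.ZT

open Pool.Agent.Results.MP_773080_lc.RocNotGPrincipal
open Pool.Agent.Results.MP_773080_lc.RocNotGPrincipal.OneCounter

variable {Y : Type}

/-- A long computation on `w α ... α` from a bounded counter has an ascending cycle, or the number
of the factors `α` can be changed. -/
theorem up_cycle (A : OneCounter Y) (w α : List Y) (H : ℕ) : ∃ X0, ∀ q h, h ≤ H → ∀ x, X0 ≤ x →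
    ∀ (v : ℕ → A.State) (a : ℕ → ℕ), A.Run q h w (v 0) (a 0) →
      (∀ i < x, A.Run (v i) (a i) α (v (i + 1)) (a (i + 1))) →
      (∃ i j, i < j ∧ j ≤ x ∧ v i = v j ∧ a i < a j) ∨
        ∃ d, 0 < d ∧ ∀ n, A.Run q h (w ++ rep (x + n * d) α) (v x) (a x) := by
  have := A.finState
  obtain ⟨C1, hC1⟩ := A.gain_word w
  obtain ⟨C2, hC2⟩ := A.gain_word α
  refine ⟨Nat.card A.State + Nat.card A.State * ((H + C1 + C2) +
    Nat.card A.State * (H + C1 + C2) + 1), fun q h0 hh0 x hx v a r0 ra => ?_⟩
  obtain ⟨i, j, hij, hj, he, h⟩ := exists_cycle (H + C1 + C2) x v a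
    (fun k => A.PosEps q h0 (w ++ rep k α) (v k) (a k)) (by
      rcases hC1 _ _ _ _ r0 with h | h
      · left; omega
      · right; simpa using h) (by
      intro k hk
      rcases hC2 _ _ _ _ (ra k hk) with h | h
      · left; omega
      · right
        have h2 := chain_run ra 0 k (by omega)
        rw [Nat.zero_add] at h2
        have h3 := PosEps.trans'' (r0.trans' h2) h
        rw [rep_succ']
        simpa using h3) hx
  have r1 := chain_run ra 0 i (by omega)
  have r2 := chain_run ra i (j - i) (by omega)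
  have r3 := chain_run ra j (x - j) (by omega)
  rw [show i + (j - i) = j by omega] at r2
  rw [show j + (x - j) = x by omega] at r3
  rw [show 0 + i = i by omega] at r1
  rcases Nat.lt_trichotomy (a i) (a j) with hlt | heq | hgt
  · exact Or.inl ⟨i, j, hij, hj, he, hlt⟩
  · refine Or.inr ⟨j - i, by omega, fun n => ?_⟩
    rw [← he, ← heq] at r2 r3
    have r4 := r2.iter_up (g := 0) n
    simp only [Nat.mul_zero, Nat.add_zero] at r4
    have r5 := (r0.trans' r1).trans' (r4.trans' (r2.trans' r3))
    have e : w ++ rep i α ++ (rep n (rep (j - i) α) ++ (rep (j - i) α ++ rep (x - j) α)) =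
        w ++ rep (x + n * (j - i)) α := by
      rw [rep_rep, ← rep_add, ← rep_add, List.append_assoc, ← rep_add]
      congr 2
      omega
    rwa [e] at r5
  · have hbad : A.PosEps q h0 (w ++ rep i α) (v i) (a i) := by
      rcases h with h | ⟨k, hk, hb⟩
      · omega
      · have r4 := chain_run ra k (i - k) (by omega)
        rw [show k + (i - k) = i by omega] at r4
        have := hb.trans' r4
        rw [List.append_assoc, ← rep_add, show k + (i - k) = i by omega] at this
        exact this
    obtain ⟨w1, w2, p, b1, b2, hw, hb, h1, h2, h3⟩ := hbad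
    obtain ⟨g, rfl⟩ : ∃ g, b2 = b1 + g := ⟨b2 - b1, by omega⟩
    obtain ⟨g', hg'⟩ : ∃ g', a i = a j + g' := ⟨a i - a j, by omega⟩
    rw [← he] at r2 r3
    rw [hg'] at r2 h3
    refine Or.inr ⟨g * (j - i), Nat.mul_pos (by omega) (by omega), fun n => ?_⟩
    have r5 := pump h1 h2 h3 r2 r3 n
    have e : w1 ++ ([] ++ (rep (n * g') ([] : List Y) ++ (w2 ++ (rep (j - i) α ++
        (rep (n * g) (rep (j - i) α) ++ rep (x - j) α))))) =
        w ++ rep (x + n * (g * (j - i))) α := by
      rw [rep_nil, rep_rep, ← rep_add, ← rep_add, List.nil_append, List.nil_append,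
        ← List.append_assoc, ← hw, List.append_assoc, ← rep_add]
      congr 2
      rw [Nat.mul_assoc]
      omega
    rwa [e] at r5

/-- A long computation on `γ ... γ w` which ends with the counter zero has a descending cycle, or the
number of the factors `γ` can be changed. -/
theorem down_cycle (A : OneCounter Y) (w γ : List Y) : ∃ Y0, ∀ r y, Y0 ≤ y →
    ∀ (v : ℕ → A.State) (a : ℕ → ℕ),
      (∀ i < y, A.Run (v i) (a i) γ (v (i + 1)) (a (i + 1))) → A.Run (v y) (a y) w r 0 →
      (∃ i j, i < j ∧ j ≤ y ∧ v i = v j ∧ a j < a i) ∨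
        ∃ e, 0 < e ∧ ∀ n, A.Run (v 0) (a 0) (rep (y + n * e) γ ++ w) r 0 := by
  have := A.finState
  obtain ⟨C1, hC1⟩ := A.drop_word w
  obtain ⟨C2, hC2⟩ := A.drop_word γ
  refine ⟨Nat.card A.State + Nat.card A.State * ((C1 + C2) +
    Nat.card A.State * (C1 + C2) + 1), fun f y hx v a rc rf => ?_⟩
  obtain ⟨i, j, hij, hj, he, h⟩ := exists_cycle (C1 + C2) y (fun k => v (y - k))
    (fun k => a (y - k))
    (fun k => A.NegEps (v (y - k)) (a (y - k)) (rep k γ ++ w) f 0) (by
      rcases hC1 _ _ _ _ rf with h | h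
      · left; simp only [Nat.sub_zero]; omega
      · right; simpa using h) (by
      intro k hk
      have r1 := rc (y - (k + 1)) (by omega)
      rw [show y - (k + 1) + 1 = y - k by omega] at r1
      rcases hC2 _ _ _ _ r1 with h | h
      · left; omega
      · right
        have h2 := chain_run rc (y - k) k (by omega)
        rw [show y - k + k = y by omega] at h2
        have h3 := NegEps.trans' h (h2.trans' rf)
        rw [rep_succ, List.append_assoc]
        exact h3) hx
  obtain ⟨i', hi'⟩ : ∃ i', i' = y - j := ⟨_, rfl⟩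
  obtain ⟨j', hj'⟩ : ∃ j', j' = y - i := ⟨_, rfl⟩
  have hij' : i' < j' := by omega
  have he' : v i' = v j' := by rw [hi', hj']; exact he.symm
  have r1 := chain_run rc 0 i' (by omega)
  have r2 := chain_run rc i' (j' - i') (by omega)
  have r3 := chain_run rc j' (y - j') (by omega)
  rw [show i' + (j' - i') = j' by omega] at r2
  rw [show j' + (y - j') = y by omega] at r3
  rw [show 0 + i' = i' by omega] at r1
  rcases Nat.lt_trichotomy (a j') (a i') with hlt | heq | hgt
  · exact Or.inl ⟨i', j', hij', by omega, he', hlt⟩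
  · refine Or.inr ⟨j' - i', by omega, fun n => ?_⟩
    rw [← he', heq] at r2 r3
    have r4 := r2.iter_up (g := 0) n
    simp only [Nat.mul_zero, Nat.add_zero] at r4
    have r5 := r1.trans' (r4.trans' (r2.trans' (r3.trans' rf)))
    have e : rep i' γ ++ (rep n (rep (j' - i') γ) ++
        (rep (j' - i') γ ++ (rep (y - j') γ ++ w))) =
        rep (y + n * (j' - i')) γ ++ w := by
      rw [rep_rep, rep_append, rep_append, rep_append]
      congr 2
      omega
    rwa [e] at r5
  · have hbad : A.NegEps (v j') (a j') (rep (y - j') γ ++ w) f 0 := by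
      rcases h with h | ⟨k, hk, hb⟩
      · rw [← hi', ← hj'] at h
        omega
      · have r4 := chain_run rc j' (y - k - j') (by omega)
        rw [show j' + (y - k - j') = y - k by omega] at r4
        have := NegEps.trans'' r4 hb
        rw [rep_append, show y - k - j' + k = y - j' by omega] at this
        exact this
    obtain ⟨w1, w2, p, b1, b2, hw, hb, h1, h2, h3⟩ := hbad
    obtain ⟨g', rfl⟩ : ∃ g', b1 = b2 + g' := ⟨b1 - b2, by omega⟩
    obtain ⟨g, hg⟩ : ∃ g, a j' = a i' + g := ⟨a j' - a i', by omega⟩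
    rw [← he'] at r2 h1
    rw [hg] at r2 h1
    refine Or.inr ⟨g' * (j' - i'), Nat.mul_pos (by omega) (by omega), fun n => ?_⟩
    have r5 := pump r1 r2 h1 h2 h3 n
    have e : rep i' γ ++ (rep (j' - i') γ ++
        (rep (n * g') (rep (j' - i') γ) ++ (w1 ++ ([] ++ (rep (n * g) ([] : List Y) ++ w2))))) =
        rep (y + n * (g' * (j' - i'))) γ ++ w := by
      rw [rep_nil, List.nil_append, List.nil_append, ← hw, rep_rep, rep_append, rep_append,
        rep_append]
      congr 2
      rw [Nat.mul_assoc]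
      omega
    rwa [e] at r5

/-- The suffixes of `α0 α ... α`. -/
theorem suffix_rep (α0 α : List Y) : ∀ (x : ℕ) (w1 w2 : List Y), α0 ++ rep x α = w1 ++ w2 →
    ∃ s x2, x2 ≤ x ∧ w2 = s ++ rep x2 α ∧ w1 ++ s = α0 ++ rep (x - x2) α ∧
      (x2 = x ∧ s <:+ α0 ∨ x2 < x ∧ s <:+ α) := by
  intro x
  induction x with
  | zero =>
    intro w1 w2 h
    rw [rep_zero, List.append_nil] at h
    exact ⟨w2, 0, le_rfl, by simp, by simp [h], Or.inl ⟨rfl, w1, h.symm⟩⟩
  | succ x ih =>
    intro w1 w2 h
    rw [rep_succ', ← List.append_assoc] at h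
    rcases List.append_eq_append_iff.1 h with ⟨c, h1, h2⟩ | ⟨c, h1, h2⟩
    · refine ⟨w2, 0, Nat.zero_le _, by simp, ?_, Or.inr ⟨by omega, c, h2.symm⟩⟩
      rw [h1, Nat.sub_zero, rep_succ', h2]
      simp
    · obtain ⟨s, x2, h3, h4, h5, h6⟩ := ih w1 c h1
      refine ⟨s, x2 + 1, by omega, ?_, ?_, ?_⟩
      · rw [h2, h4, rep_succ', List.append_assoc]
      · rw [h5, show x + 1 - (x2 + 1) = x - x2 by omega]
      · rcases h6 with ⟨h7, h8⟩ | ⟨h7, h8⟩
        · exact Or.inl ⟨by omega, h8⟩
        · exact Or.inr ⟨by omega, h8⟩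

/-- The prefixes of `γ ... γ δ`. -/
theorem prefix_rep (γ δ w4 : List Y) : ∀ (y : ℕ) (c : List Y), rep y γ ++ δ = c ++ w4 →
    ∃ D t, D ≤ y ∧ c = rep D γ ++ t ∧ t ++ w4 = rep (y - D) γ ++ δ ∧ (t <+: γ ∨ t <+: δ) := by
  intro y
  induction y with
  | zero =>
    intro c h
    rw [rep_zero, List.nil_append] at h
    exact ⟨0, c, le_rfl, by simp, by simp [h], Or.inr ⟨w4, h.symm⟩⟩
  | succ y ih =>
    intro c h
    rw [rep_succ, List.append_assoc] at h
    rcases List.append_eq_append_iff.1 h with ⟨c', h1, h2⟩ | ⟨c', h1, h2⟩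
    · obtain ⟨D, t, h3, h4, h5, h6⟩ := ih c' h2
      refine ⟨D + 1, t, by omega, ?_, ?_, h6⟩
      · rw [h1, h4, rep_succ, List.append_assoc]
      · rw [h5, show y + 1 - (D + 1) = y - D by omega]
    · refine ⟨0, c, Nat.zero_le _, by simp, ?_, Or.inl ⟨c', h1.symm⟩⟩
      rw [h2, ← List.append_assoc, ← h1, Nat.sub_zero, rep_succ, List.append_assoc]

theorem length_rep (n : ℕ) (u : List Y) : (rep n u).length = n * u.length := by
  induction n with
  | zero => simp
  | succ n ih => rw [rep_succ, List.length_append, ih]; ring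

theorem exists_bound (l : List (List Y)) (f : List Y → ℕ) : ∃ B, ∀ s ∈ l, f s ≤ B := by
  induction l with
  | nil => exact ⟨0, by simp⟩
  | cons t l ih =>
    obtain ⟨B, hB⟩ := ih
    refine ⟨max (f t) B, fun s hs => ?_⟩
    rcases List.mem_cons.1 hs with rfl | hs
    · exact le_max_left _ _
    · exact (hB s hs).trans (le_max_right _ _)

end Pool.Agent.H90.ZT
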