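import Pool.Graph.R_seed8.Results.MP_773080_lc.RocNotGPrincipal

/-!
# One-counter automata with zero tests
-/

set_option autoImplicit false

namespace Pool.Agent.H90.ZT

open Pool.Agent.Results.MP_773080_lc.RocNotGPrincipal

/-- A nondeterministic one-counter automaton with zero tests. The transitions of `base` can be used
only if the counter is positive: `(q, o, r, j)` leads from `q` to `r`, reads `x` if `o = some x` and
nothing if `o = none`, lowers the counter by one and raises it by `j`. The transitions
`(q, o, r, j)` of `ztrans` can be used only if the counter is zero; they raise it to `j`. -/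
structure ZeroTest (X : Type) where
  /-- the states, and the transitions for a positive counter -/
  base : OneCounter X
  /-- the counter at the beginning -/
  start : ℕ
  /-- the transitions for the counter zero -/
  ztrans : Set (base.State × Option X × base.State × ℕ)
  /-- there are finitely many of them -/
  finZ : ztrans.Finite

namespace ZeroTest

variable {X : Type}

/-- `Z.Run q h w r k`: some computation of `Z` leads from the state `q` with the counter `h` to the
state `r` with the counter `k` and reads the word `w`. -/
inductive Run (Z : ZeroTest X) : Z.base.State → ℕ → List X → Z.base.State → ℕ → Prop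
  | nil (q : Z.base.State) (h : ℕ) : Run Z q h [] q h
  | pos {q p r : Z.base.State} {o : Option X} {j h k : ℕ} {w : List X}
      (ht : (q, o, p, j) ∈ Z.base.trans) (hr : Run Z p (h + j) w r k) :
      Run Z q (h + 1) (o.toList ++ w) r k
  | zero {q p r : Z.base.State} {o : Option X} {j k : ℕ} {w : List X}
      (ht : (q, o, p, j) ∈ Z.ztrans) (hr : Run Z p j w r k) :
      Run Z q 0 (o.toList ++ w) r k

/-- The language accepted by `Z`, by final state and counter zero. -/
def language (Z : ZeroTest X) : Language X :=
  {w | ∃ f ∈ Z.base.accept, Z.Run Z.base.init Z.start w f 0}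

end ZeroTest

/-- `Ocl`, the family of the one-counter languages: the languages accepted by nondeterministic
one-counter automata with zero tests. -/
def Ocl : Family := fun X _ L => ∃ Z : ZeroTest X, Z.language = L

namespace ZeroTest

variable {X : Type} {Z : ZeroTest X}

theorem Run.trans' {q r t : Z.base.State} {h k l : ℕ} {u v : List X} (h1 : Z.Run q h u r k)
    (h2 : Z.Run r k v t l) : Z.Run q h (u ++ v) t l := by
  induction h1 with
  | nil q h => exact h2
  | pos ht _ ih => rw [List.append_assoc]; exact .pos ht (ih h2)
  | zero ht _ ih => rw [List.append_assoc]; exact .zero ht (ih h2)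

theorem Run.of_base {q r : Z.base.State} {h k : ℕ} {w : List X} (h1 : Z.base.Run q h w r k) :
    Z.Run q h w r k := by
  induction h1 with
  | nil q h => exact .nil q h
  | @read q p r x j h k w ht _ ih => exact Run.pos (o := some x) ht ih
  | @eps q p r j h k w ht _ ih => exact Run.pos (o := none) ht ih

theorem base_step {q p r : Z.base.State} {o : Option X} {j h k : ℕ} {w : List X}
    (ht : (q, o, p, j) ∈ Z.base.trans) (hr : Z.base.Run p (h + j) w r k) :
    Z.base.Run q (h + 1) (o.toList ++ w) r k := by
  cases o with
  | none => exact OneCounter.Run.eps ht hr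
  | some x => exact OneCounter.Run.read ht hr

/-- Splitting a computation at a place of the word. -/
theorem Run.split {q t : Z.base.State} {h l : ℕ} {w : List X} (h1 : Z.Run q h w t l) :
    ∀ u v, w = u ++ v → ∃ r k, Z.Run q h u r k ∧ Z.Run r k v t l := by
  induction h1 with
  | nil q h =>
    intro u v e
    obtain ⟨rfl, rfl⟩ := List.append_eq_nil_iff.1 e.symm
    exact ⟨q, h, .nil _ _, .nil _ _⟩
  | @pos q p r o j h k w ht hr ih =>
    intro u v e
    cases o with
    | none =>
      obtain ⟨r', k', h2, h3⟩ := ih u v e
      exact ⟨r', k', Run.pos (o := none) ht h2, h3⟩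
    | some x =>
      cases u with
      | nil =>
        refine ⟨q, h + 1, .nil _ _, ?_⟩
        rw [List.nil_append] at e
        rw [← e]
        exact Run.pos ht hr
      | cons y u =>
        have e' : x :: w = y :: (u ++ v) := e
        obtain ⟨rfl, e2⟩ := List.cons.inj e'
        obtain ⟨r', k', h2, h3⟩ := ih u v e2
        exact ⟨r', k', Run.pos (o := some x) ht h2, h3⟩
  | @zero q p r o j k w ht hr ih =>
    intro u v e
    cases o with
    | none =>
      obtain ⟨r', k', h2, h3⟩ := ih u v e
      exact ⟨r', k', Run.zero (o := none) ht h2, h3⟩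
    | some x =>
      cases u with
      | nil =>
        refine ⟨q, 0, .nil _ _, ?_⟩
        rw [List.nil_append] at e
        rw [← e]
        exact Run.zero ht hr
      | cons y u =>
        have e' : x :: w = y :: (u ++ v) := e
        obtain ⟨rfl, e2⟩ := List.cons.inj e'
        obtain ⟨r', k', h2, h3⟩ := ih u v e2
        exact ⟨r', k', Run.zero (o := some x) ht h2, h3⟩

/-- The last use of a zero test. -/
theorem Run.last_zero {q r : Z.base.State} {h k : ℕ} {w : List X} (h1 : Z.Run q h w r k) :
    Z.base.Run q h w r k ∨ ∃ (w1 w2 : List X) (o : Option X) (q1 p : Z.base.State) (j : ℕ),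
      w = w1 ++ (o.toList ++ w2) ∧ Z.Run q h w1 q1 0 ∧ (q1, o, p, j) ∈ Z.ztrans ∧
        Z.base.Run p j w2 r k := by
  induction h1 with
  | nil q h => exact Or.inl (.nil q h)
  | @pos q p r o j h k w ht hr ih =>
    rcases ih with h2 | ⟨w1, w2, o', q1, p', j', rfl, h3, h4, h5⟩
    · exact Or.inl (base_step ht h2)
    · exact Or.inr ⟨o.toList ++ w1, w2, o', q1, p', j', by rw [List.append_assoc],
        Run.pos ht h3, h4, h5⟩
  | @zero q p r o j k w ht hr ih =>
    rcases ih with h2 | ⟨w1, w2, o', q1, p', j', rfl, h3, h4, h5⟩
    · exact Or.inr ⟨[], w, o, q, p, j, rfl, .nil _ _, ht, h2⟩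
    · exact Or.inr ⟨o.toList ++ w1, w2, o', q1, p', j', by rw [List.append_assoc],
        Run.zero ht h3, h4, h5⟩

/-- The first use of a zero test. -/
theorem Run.first_zero {q r : Z.base.State} {h k : ℕ} {w : List X} (h1 : Z.Run q h w r k) :
    Z.base.Run q h w r k ∨ ∃ (w1 w2 : List X) (q1 : Z.base.State),
      w = w1 ++ w2 ∧ Z.base.Run q h w1 q1 0 ∧ Z.Run q1 0 w2 r k := by
  induction h1 with
  | nil q h => exact Or.inl (.nil q h)
  | @pos q p r o j h k w ht hr ih =>
    rcases ih with h2 | ⟨w1, w2, q1, rfl, h3, h4⟩
    · exact Or.inl (base_step ht h2)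
    · exact Or.inr ⟨o.toList ++ w1, w2, q1, by rw [List.append_assoc], base_step ht h3, h4⟩
  | @zero q p r o j k w ht hr ih =>
    exact Or.inr ⟨[], o.toList ++ w, q, rfl, .nil _ _, Run.zero ht hr⟩

end ZeroTest

/-- Every restricted one-counter language is a one-counter language. -/
theorem ocl_of_roc {X : Type} [Finite X] {L : Language X} (h : Roc X L) : Ocl X L := by
  obtain ⟨A, rfl⟩ := h
  refine ⟨⟨A, 1, ∅, Set.finite_empty⟩, ?_⟩
  ext w
  constructor
  · rintro ⟨f, hf, h1⟩
    rcases h1.last_zero with h2 | ⟨_, _, _, _, _, _, _, _, h2, _⟩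
    · exact ⟨f, hf, h2⟩
    · exact absurd h2 (Set.notMem_empty _)
  · rintro ⟨f, hf, h1⟩
    exact ⟨f, hf, ZeroTest.Run.of_base (Z := ⟨A, 1, ∅, Set.finite_empty⟩) h1⟩

end Pool.Agent.H90.ZT
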