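import Pool.Agent.H90.ZT.Unique

/-!
# Inverse rational functions
-/

set_option autoImplicit false

namespace Pool.Agent.H90.ZT

open Pool.Agent.Results.MP_773080_lc.RocNotGPrincipal

variable {X Y : Type}

/-- The inverse image of the language `L` under the function from words over `X` to words over `Y`
given by an a-gsm `M`, an initial output `i` and final outputs `t q` for the states `q` (a
subsequential function). For `i` and `t` empty this is the inverse image `M.inv L` under the a-gsm
mapping. -/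
def leftInv (M : AGsm X Y) (i : List Y) (t : M.State → List Y) (L : Language Y) : Language X :=
  {u | M.run M.init u ∈ M.accept ∧
    i ++ (M.output M.init u ++ t (M.run M.init u)) ∈ L}

/-- The same with the input read and the output written from right to left. -/
def rightInv (M : AGsm X Y) (i : List Y) (t : M.State → List Y) (L : Language Y) : Language X :=
  {u | M.run M.init u.reverse ∈ M.accept ∧
    (i ++ (M.output M.init u.reverse ++ t (M.run M.init u.reverse))).reverse ∈ L}

/-- The family `F` is closed under the inverses of the subsequential functions from left to right and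
from right to left. By a theorem of Elgot and Mezei these are the families which are closed under the
inverses of all (partial) rational functions. -/
def ClosedInvRat (F : Family) : Prop :=
  ∀ (X Y : Type) [Finite X] [Finite Y] (M : AGsm X Y) (i : List Y) (t : M.State → List Y)
    (L : Language Y), F Y L → F X (leftInv M i t L) ∧ F X (rightInv M i t L)

/-- The smallest family which contains `L` and is closed under the inverses of the subsequential
functions from left to right and from right to left. -/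
def R {Y : Type} [Finite Y] (L : Language Y) : Family :=
  fun X _ N => ∀ F : Family, ClosedInvRat F → F Y L → F X N

theorem ClosedInvRat.gsm {F : Family} (h : ClosedInvRat F) : ClosedInvGsm F := by
  intro X Y _ _ M L hL
  have h1 := (h X Y M [] (fun _ => []) L hL).1
  have e : leftInv M [] (fun _ => []) L = M.inv L := by
    ext u
    change _ ∧ _ ↔ _ ∧ _
    rw [List.nil_append, List.append_nil]
  rwa [e] at h1

theorem r_of_g {X Y : Type} [Finite X] [Finite Y] {L : Language Y} {N : Language X}
    (h : G L X N) : R L X N := fun F hF hL => h F hF.gsm hL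

theorem run_rep (M : AGsm X Y) (p : M.State) (u : List X) (n : ℕ) :
    M.run p (rep n u) = (fun p => M.run p u)^[n] p := by
  induction n generalizing p with
  | zero => rfl
  | succ n ih => rw [rep_succ, M.run_append, ih, Function.iterate_succ_apply]

theorem output_rep (M : AGsm X Y) {p : M.State} {u : List X} (h : M.run p u = p) (n : ℕ) :
    M.output p (rep n u) = rep n (M.output p u) := by
  induction n with
  | zero => rfl
  | succ n ih => rw [rep_succ, M.output_append, h, ih, rep_succ]

/-- The a-gsm on the powers of a word. -/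
theorem gsm_rep (M : AGsm X Y) (u : List X) : ∃ n0, 0 < n0 ∧ ∀ t, 0 < t → ∀ p, ∃ p' b a, ∀ x,
    M.run p (rep (2 * (t * n0) * (x + 1) - 1) u) = p' ∧
      M.output p (rep (2 * (t * n0) * (x + 1) - 1) u) = b ++ rep x a := by
  have := M.finState
  obtain ⟨n0, hn0, h0⟩ := exists_idem (fun p => M.run p u)
  refine ⟨n0, hn0, fun t ht p => ?_⟩
  obtain ⟨s, hs⟩ : ∃ s, s = t * n0 := ⟨_, rfl⟩
  have hs0 : 0 < s := hs ▸ Nat.mul_pos ht hn0
  rw [← hs]
  have hfix : ∀ x, (fun p => M.run p u)^[2 * s * x + (2 * s - 1)] =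
      (fun p => M.run p u)^[2 * s - 1] := by
    intro x
    have e1 : 2 * s * x + (2 * s - 1) = (s - 1) + (2 * x * t + t) * n0 := by
      have : (2 * x * t + t) * n0 = 2 * s * x + s := by rw [hs]; ring
      omega
    have e2 : 2 * s - 1 = (s - 1) + t * n0 := by omega
    rw [e1, e2, Function.iterate_add, Function.iterate_add, h0 _ (by positivity), h0 t ht]
  obtain ⟨p', hp'⟩ : ∃ p', p' = (fun p => M.run p u)^[2 * s - 1] p := ⟨_, rfl⟩
  refine ⟨p', M.output p (rep (2 * s - 1) u), M.output p' (rep (2 * s) u), fun x => ?_⟩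
  have e3 : 2 * s * (x + 1) - 1 = (2 * s - 1) + x * (2 * s) := by
    have : 2 * s * (x + 1) = x * (2 * s) + 2 * s := by ring
    omega
  constructor
  · rw [run_rep, hp', show 2 * s * (x + 1) - 1 = 2 * s * x + (2 * s - 1) by
      have : 2 * s * (x + 1) = 2 * s * x + 2 * s := by ring
      omega, hfix]
  · rw [e3, rep_add, M.output_append, run_rep, ← hp', ← rep_rep]
    congr 1
    refine output_rep M ?_ x
    rw [run_rep, hp', ← Function.iterate_add_apply]
    have := hfix 1
    rw [Nat.mul_one] at this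
    rw [this]

/-- The a-gsm on the words `β0 α ... α β1 γ ... γ β2`. -/
theorem gsm_fam (M : AGsm X Y) (β0 α β1 γ β2 : List X) : ∃ n, 0 < n ∧
    ∃ (q : M.State) (b0 a b1 c b2 : List Y), ∀ x y,
      M.run M.init (Fam β0 α β1 γ β2 (n * (x + 1) - 1) (n * (y + 1) - 1)) = q ∧
        M.output M.init (Fam β0 α β1 γ β2 (n * (x + 1) - 1) (n * (y + 1) - 1)) =
          Fam b0 a b1 c b2 x y := by
  obtain ⟨n1, hn1, h1⟩ := gsm_rep M α
  obtain ⟨n2, hn2, h2⟩ := gsm_rep M γ
  refine ⟨2 * (n2 * n1), by positivity, ?_⟩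
  obtain ⟨p1, b0, a, h3⟩ := h1 n2 hn2 (M.run M.init β0)
  obtain ⟨p2, b1, c, h4⟩ := h2 n1 hn1 (M.run p1 β1)
  rw [Nat.mul_comm n1 n2] at h4
  refine ⟨M.run p2 β2, M.output M.init β0 ++ b0, a, M.output p1 β1 ++ b1, c, M.output p2 β2,
    fun x y => ⟨?_, ?_⟩⟩
  · unfold Fam
    rw [M.run_append, M.run_append, (h3 x).1, M.run_append, M.run_append, (h4 y).1]
  · unfold Fam
    rw [M.output_append, M.output_append, (h3 x).1, (h3 x).2, M.output_append, M.output_append,
      (h4 y).1, (h4 y).2]
    simp only [List.append_assoc]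

theorem rep_reverse (n : ℕ) (u : List X) : (rep n u).reverse = rep n u.reverse := by
  induction n with
  | zero => rfl
  | succ n ih => rw [rep_succ, List.reverse_append, ih, rep_succ']

theorem fam_reverse (β0 α β1 γ β2 : List X) (x y : ℕ) : (Fam β0 α β1 γ β2 x y).reverse =
    Fam β2.reverse γ.reverse β1.reverse α.reverse β0.reverse y x := by
  simp [Fam, rep_reverse]

/-- The words `β0 α ... α β1 γ ... γ β2` in the language `N` correspond to such words in `L`, if the
exponents are restricted to arithmetic progressions. -/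
def Pulled {Y : Type} (L : Language Y) : Family := fun X _ N =>
  ∀ β0 α β1 γ β2 : List X, ∃ n, 0 < n ∧
    ((∀ x y, Fam β0 α β1 γ β2 (n * (x + 1) - 1) (n * (y + 1) - 1) ∉ N) ∨
      ∃ b0 a b1 c b2 : List Y, ∀ x y,
        Fam β0 α β1 γ β2 (n * (x + 1) - 1) (n * (y + 1) - 1) ∈ N ↔ Fam b0 a b1 c b2 x y ∈ L)

theorem pulled_self {Y : Type} [Finite Y] (L : Language Y) : Pulled L Y L := by
  intro β0 α β1 γ β2
  exact ⟨1, one_pos, Or.inr ⟨β0, α, β1, γ, β2, fun x y => by simp⟩⟩

theorem mul_aux (n n' x : ℕ) (hn' : 0 < n') :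
    n * n' * (x + 1) - 1 = n * (n' * (x + 1) - 1 + 1) - 1 := by
  have h : 0 < n' * (x + 1) := by positivity
  rw [show n' * (x + 1) - 1 + 1 = n' * (x + 1) by omega, Nat.mul_assoc]

theorem append_fam (i β0 α β1 γ β2 t : List X) (x y : ℕ) :
    i ++ (Fam β0 α β1 γ β2 x y ++ t) = Fam (i ++ β0) α β1 γ (β2 ++ t) x y := by
  simp [Fam]

theorem pulled_closed {Y : Type} (L : Language Y) : ClosedInvRat (Pulled L) := by
  intro X X' _ _ M i t N hN
  constructor
  · intro β0 α β1 γ β2
    obtain ⟨n, hn, q, b0, a, b1, c, b2, h⟩ := gsm_fam M β0 α β1 γ β2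
    obtain ⟨n', hn', h'⟩ := hN (i ++ b0) a b1 c (b2 ++ t q)
    have hrw : ∀ x y, Fam β0 α β1 γ β2 (n * n' * (x + 1) - 1) (n * n' * (y + 1) - 1) ∈
        leftInv M i t N ↔ q ∈ M.accept ∧
          Fam (i ++ b0) a b1 c (b2 ++ t q) (n' * (x + 1) - 1) (n' * (y + 1) - 1) ∈ N := by
      intro x y
      rw [mul_aux n n' x hn', mul_aux n n' y hn']
      have h1 := h (n' * (x + 1) - 1) (n' * (y + 1) - 1)
      change _ ∧ _ ↔ _
      rw [h1.1, h1.2, append_fam]
    refine ⟨n * n', by positivity, ?_⟩
    by_cases hq : q ∈ M.accept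
    · rcases h' with h' | ⟨d0, d, d1, e, d2, h'⟩
      · left
        intro x y hc
        exact h' x y ((hrw x y).1 hc).2
      · right
        refine ⟨d0, d, d1, e, d2, fun x y => ?_⟩
        rw [hrw, ← h']
        exact ⟨fun h => h.2, fun h => ⟨hq, h⟩⟩
    · left
      intro x y hc
      exact hq ((hrw x y).1 hc).1
  · intro β0 α β1 γ β2
    obtain ⟨n, hn, q, b0, a, b1, c, b2, h⟩ :=
      gsm_fam M β2.reverse γ.reverse β1.reverse α.reverse β0.reverse
    obtain ⟨n', hn', h'⟩ := hN (b2 ++ t q).reverse c.reverse b1.reverse a.reverse (i ++ b0).reverse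
    have hrw : ∀ x y, Fam β0 α β1 γ β2 (n * n' * (x + 1) - 1) (n * n' * (y + 1) - 1) ∈
        rightInv M i t N ↔ q ∈ M.accept ∧
          Fam (b2 ++ t q).reverse c.reverse b1.reverse a.reverse (i ++ b0).reverse
            (n' * (x + 1) - 1) (n' * (y + 1) - 1) ∈ N := by
      intro x y
      rw [mul_aux n n' x hn', mul_aux n n' y hn']
      have h1 := h (n' * (y + 1) - 1) (n' * (x + 1) - 1)
      change _ ∧ _ ↔ _
      rw [fam_reverse, h1.1, h1.2, append_fam, fam_reverse]
    refine ⟨n * n', by positivity, ?_⟩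
    by_cases hq : q ∈ M.accept
    · rcases h' with h' | ⟨d0, d, d1, e, d2, h'⟩
      · left
        intro x y hc
        exact h' x y ((hrw x y).1 hc).2
      · right
        refine ⟨d0, d, d1, e, d2, fun x y => ?_⟩
        rw [hrw, ← h']
        exact ⟨fun h => h.2, fun h => ⟨hq, h⟩⟩
    · left
      intro x y hc
      exact hq ((hrw x y).1 hc).1

/-- Passing to a coarser arithmetic progression. -/
theorem fam_mul (β0 α β1 γ β2 : List X) {n : ℕ} (hn : 0 < n) (x y : ℕ) :
    Fam β0 α β1 γ β2 (n * (x + 1) - 1) (n * (y + 1) - 1) =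
      Fam (β0 ++ rep (n - 1) α) (rep n α) (β1 ++ rep (n - 1) γ) (rep n γ) β2 x y := by
  have h : ∀ (z : ℕ) (u : List X), rep (n * (z + 1) - 1) u = rep (n - 1) u ++ rep z (rep n u) := by
    intro z u
    rw [rep_rep, ← rep_add]
    congr 1
    have : n * (z + 1) = n - 1 + z * n + 1 := by
      have : n * (z + 1) = z * n + n := by ring
      omega
    omega
  simp only [Fam, h, List.append_assoc]

/-- The languages `K m` of large `m` are not unions of few languages obtained from one-counter
languages with few states. -/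
theorem union_bound {ι : Type} [Fintype ι] (Y : ι → Type) [∀ j, Finite (Y j)]
    (Z : ∀ j, ZeroTest (Y j)) (N : ι → Language Bool)
    (hN : ∀ j, R (Z j).language Bool (N j)) (m : ℕ) (hK : ∀ w, w ∈ K m ↔ ∃ j, w ∈ N j) :
    m ≤ ∑ j, Nat.card (Z j).base.State ^ 2 := by
  classical
  have hex : ∀ j, ∃ n, 0 < n ∧
      ((∀ x y, Fam [false] [false] [true] [true] [] (n * (x + 1) - 1) (n * (y + 1) - 1) ∉ N j) ∨
        ∃ b0 a b1 c b2 : List (Y j), ∀ x y,
          Fam [false] [false] [true] [true] [] (n * (x + 1) - 1) (n * (y + 1) - 1) ∈ N j ↔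
            Fam b0 a b1 c b2 x y ∈ (Z j).language) := fun j =>
    hN j (Pulled (Z j).language) (pulled_closed _) (pulled_self _) _ _ _ _ _
  choose n hn hj using hex
  obtain ⟨P, hP⟩ : ∃ P, P = ∏ j, n j := ⟨_, rfl⟩
  have hP0 : 0 < P := hP ▸ Finset.prod_pos fun j _ => hn j
  have hdvd : ∀ j, ∃ k, 0 < k ∧ P = n j * k := by
    intro j
    obtain ⟨k, hk⟩ := Finset.dvd_prod_of_mem n (Finset.mem_univ j)
    rw [← hP] at hk
    refine ⟨k, ?_, hk⟩
    rcases Nat.eq_zero_or_pos k with h | h
    · rw [h, Nat.mul_zero] at hk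
      omega
    · exact h
  choose k hk0 hk using hdvd
  -- membership in `K m` on the progression
  have hmem : ∀ x y, Fam [false] [false] [true] [true] [] (P * (x + 1) - 1) (P * (y + 1) - 1) ∈
      K m ↔ ∃ i, 1 ≤ i ∧ i ≤ m ∧ y + 1 = i * (x + 1) := by
    intro x y
    have hx : 0 < P * (x + 1) := by positivity
    have hy : 0 < P * (y + 1) := by positivity
    have hrep : ∀ (b : Bool) (k : ℕ), rep k [b] = List.replicate k b := by
      intro b k
      induction k with
      | zero => rfl
      | succ k ih => rw [rep_succ, ih, List.replicate_succ]; rfl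
    have e : Fam [false] [false] [true] [true] [] (P * (x + 1) - 1) (P * (y + 1) - 1) =
        List.replicate (P * (x + 1)) false ++ List.replicate (P * (y + 1)) true := by
      unfold Fam
      rw [hrep, hrep]
      obtain ⟨u, hu⟩ : ∃ u, P * (x + 1) = u + 1 := ⟨P * (x + 1) - 1, by omega⟩
      obtain ⟨v, hv⟩ : ∃ v, P * (y + 1) = v + 1 := ⟨P * (y + 1) - 1, by omega⟩
      rw [hu, hv]
      simp [List.replicate_succ]
    rw [e, mem_K_iff]
    refine exists_congr fun i => and_congr_right fun _ => and_congr_right fun _ => ?_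
    rw [show i * (P * (x + 1)) = P * (i * (x + 1)) by ring]
    exact ⟨fun h => Nat.eq_of_mul_eq_mul_left hP0 h, fun h => by rw [h]⟩
  -- the words over the alphabets `Y j`
  have hwords : ∀ j, ∃ b0 a b1 c b2 : List (Y j), ∀ x y,
      (Fam b0 a b1 c b2 x y ∈ (Z j).language → Fam [false] [false] [true] [true] []
        (P * (x + 1) - 1) (P * (y + 1) - 1) ∈ N j) ∧
      (Fam [false] [false] [true] [true] [] (P * (x + 1) - 1) (P * (y + 1) - 1) ∈ N j →
        Fam b0 a b1 c b2 x y ∈ (Z j).language) ∨
      ∀ x y, Fam [false] [false] [true] [true] [] (P * (x + 1) - 1) (P * (y + 1) - 1) ∉ N j := by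
    intro j
    rcases hj j with h | ⟨b0, a, b1, c, b2, h⟩
    · refine ⟨[], [], [], [], [], fun x y => Or.inr fun x y => ?_⟩
      rw [hk j, mul_aux _ _ _ (hk0 j), mul_aux _ _ _ (hk0 j)]
      exact h _ _
    · refine ⟨b0 ++ rep (k j - 1) a, rep (k j) a, b1 ++ rep (k j - 1) c, rep (k j) c, b2,
        fun x y => Or.inl ?_⟩
      rw [← fam_mul b0 a b1 c b2 (hk0 j) x y, hk j, mul_aux _ _ _ (hk0 j), mul_aux _ _ _ (hk0 j)]
      exact ⟨(h _ _).2, (h _ _).1⟩
  choose b0 a b1 c b2 hw using hwords
  -- each slope is rich for some `j`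
  have hrich : ∀ i : Fin m, ∃ j, ∀ B : ℕ, ∃ x y, B ≤ x ∧ y + 1 = (i + 1 : ℕ) * (x + 1) ∧
      Fam [false] [false] [true] [true] [] (P * (x + 1) - 1) (P * (y + 1) - 1) ∈ N j := by
    intro i
    by_contra hcon
    push Not at hcon
    choose B hB using hcon
    obtain ⟨x, hx⟩ : ∃ x, x = ∑ j, B j := ⟨_, rfl⟩
    have hyp : 0 < (i + 1 : ℕ) * (x + 1) := by positivity
    obtain ⟨y, hy⟩ : ∃ y, y + 1 = (i + 1 : ℕ) * (x + 1) := ⟨(i + 1 : ℕ) * (x + 1) - 1, by omega⟩
    obtain ⟨j, hj⟩ := (hK _).1 ((hmem x y).2 ⟨i + 1, by omega, i.2, hy⟩)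
    exact hB j x y (hx ▸ Finset.single_le_sum (f := B) (fun _ _ => Nat.zero_le _)
      (Finset.mem_univ j)) hy hj
  choose J hJ using hrich
  -- counting
  have hcount : ∀ j, (Finset.univ.filter fun i : Fin m => J i = j).card ≤
      Nat.card (Z j).base.State ^ 2 := by
    intro j
    rcases (Finset.univ.filter fun i : Fin m => J i = j).eq_empty_or_nonempty with h | ⟨i0, hi0⟩
    · rw [h]
      exact Nat.zero_le _
    have hJ0 : J i0 = j := (Finset.mem_filter.1 hi0).2
    have hw' : ∀ x y, Fam (b0 j) (a j) (b1 j) (c j) (b2 j) x y ∈ (Z j).language ↔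
        Fam [false] [false] [true] [true] [] (P * (x + 1) - 1) (P * (y + 1) - 1) ∈ N j := by
      intro x y
      rcases hw j x y with h | h
      · exact ⟨h.1, h.2⟩
      · obtain ⟨x', y', -, -, h1⟩ := hJ i0 0
        rw [hJ0] at h1
        exact absurd h1 (h x' y')
    have hT : ZLines (Z j) (b0 j) (a j) (b1 j) (c j) (b2 j) m := fun x y h =>
      (hmem x y).1 ((hK _).2 ⟨j, (hw' x y).1 h⟩)
    have h1 := hT.card_le ((Finset.univ.filter fun i : Fin m => J i = j).image
      (fun i : Fin m => (i : ℕ) + 1)) (by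
        intro i hi
        obtain ⟨i', hi', rfl⟩ := Finset.mem_image.1 hi
        refine ⟨by omega, i'.2, fun B => ?_⟩
        obtain ⟨x, y, h1, h2, h3⟩ := hJ i' B
        rw [(Finset.mem_filter.1 hi').2] at h3
        exact ⟨x, y, h1, h2, (hw' x y).2 h3⟩)
    rwa [Finset.card_image_of_injective _ (fun i i' h => Fin.ext (by simpa using h))] at h1
  calc m = (Finset.univ : Finset (Fin m)).card := by simp
    _ = ∑ j, (Finset.univ.filter fun i : Fin m => J i = j).card :=
        Finset.card_eq_sum_card_fiberwise fun _ _ => Finset.mem_univ _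
    _ ≤ _ := Finset.sum_le_sum fun j _ => hcount j

end Pool.Agent.H90.ZT
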