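import Pool.Agent.H90.ZT.Core

/-!
# Unions of lines accepted by a one-counter automaton with zero tests
-/

set_option autoImplicit false

namespace Pool.Agent.H90.ZT

open Pool.Agent.Results.MP_773080_lc.RocNotGPrincipal
open Pool.Agent.Results.MP_773080_lc.RocNotGPrincipal.OneCounter

variable {Y : Type} {Z : ZeroTest Y} {α0 α γ0 γ δ : List Y} {m : ℕ}

/-- The word `α0 α ... α γ0 γ ... γ δ`. -/
def Fam (α0 α γ0 γ δ : List Y) (x y : ℕ) : List Y :=
  α0 ++ (rep x α ++ (γ0 ++ (rep y γ ++ δ)))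

/-- The words accepted lie on a union of lines. -/
def ZLines (Z : ZeroTest Y) (α0 α γ0 γ δ : List Y) (m : ℕ) : Prop :=
  ∀ x y, Fam α0 α γ0 γ δ x y ∈ Z.language → ∃ i, 1 ≤ i ∧ i ≤ m ∧ y + 1 = i * (x + 1)

/-- Infinitely many words on the line of slope `i` are accepted. -/
def Rich (Z : ZeroTest Y) (α0 α γ0 γ δ : List Y) (i : ℕ) : Prop :=
  ∀ B : ℕ, ∃ x y, B ≤ x ∧ y + 1 = i * (x + 1) ∧ Fam α0 α γ0 γ δ x y ∈ Z.language

theorem ZLines.no_x (hT : ZLines Z α0 α γ0 γ δ m) {x y d : ℕ} (hd : 0 < d)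
    (h : ∀ n, Fam α0 α γ0 γ δ (x + n * d) y ∈ Z.language) : False := by
  obtain ⟨i, h1, _, h3⟩ := hT _ _ (h (y + 1))
  have h4 : y + 1 ≤ (y + 1) * d := Nat.le_mul_of_pos_right _ hd
  have h5 : x + (y + 1) * d + 1 ≤ i * (x + (y + 1) * d + 1) := Nat.le_mul_of_pos_left _ h1
  omega

theorem ZLines.no_y (hT : ZLines Z α0 α γ0 γ δ m) {x y e : ℕ} (he : 0 < e)
    (h : ∀ n, Fam α0 α γ0 γ δ x (y + n * e) ∈ Z.language) : False := by
  obtain ⟨i, _, h2, h3⟩ := hT _ _ (h (m * (x + 1)))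
  have h4 : m * (x + 1) ≤ m * (x + 1) * e := Nat.le_mul_of_pos_right _ he
  have h5 : i * (x + 1) ≤ m * (x + 1) := Nat.mul_le_mul_right _ h2
  omega

theorem exists_zbound (Z : ZeroTest Y) : ∃ J, Z.start ≤ J ∧ ∀ t ∈ Z.ztrans, t.2.2.2 ≤ J := by
  obtain ⟨J, hJ⟩ := (Z.finZ.image (fun t => t.2.2.2)).bddAbove
  exact ⟨max Z.start J, le_max_left _ _, fun t ht => (hJ ⟨t, ht, rfl⟩).trans (le_max_right _ _)⟩

/-- Accepting computation: after the word `w1` it enters in the state `p` with the counter `j` its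
last part before `γ0` without zero tests, and it leaves it after `w2 w3` in the state `q` with the
counter zero. -/
structure Acc (Z : ZeroTest Y) (α0 α γ0 γ δ : List Y) (x y : ℕ) (p : Z.base.State) (j : ℕ)
    (w2 : List Y) (q : Z.base.State) (w3 : List Y) : Prop where
  h1 : ∃ w1, Z.Run Z.base.init Z.start w1 p j ∧ w1 ++ w2 = α0 ++ rep x α
  h2 : ∃ r k, Z.base.Run p j w2 r k ∧ Z.base.Run r k w3 q 0
  h3 : ∃ f ∈ Z.base.accept, ∃ w4, Z.Run q 0 w4 f 0 ∧ w3 ++ w4 = γ0 ++ (rep y γ ++ δ)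

/-- Every accepting computation has this form. -/
theorem exists_acc {J : ℕ} (hJ0 : Z.start ≤ J) (hJ : ∀ t ∈ Z.ztrans, t.2.2.2 ≤ J) {x y : ℕ}
    (h : Fam α0 α γ0 γ δ x y ∈ Z.language) :
    ∃ p j w2 q w3, j ≤ J ∧ Acc Z α0 α γ0 γ δ x y p j w2 q w3 := by
  obtain ⟨f, hf, h1⟩ := h
  obtain ⟨r, k, h2, h3⟩ := h1.split (α0 ++ rep x α) (γ0 ++ (rep y γ ++ δ)) (by simp [Fam])
  obtain ⟨w1, w2, p, j, hj, e1, h4, h5⟩ : ∃ w1 w2 p j, j ≤ J ∧ α0 ++ rep x α = w1 ++ w2 ∧
      Z.Run Z.base.init Z.start w1 p j ∧ Z.base.Run p j w2 r k := by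
    rcases h2.last_zero with h | ⟨w1, w2, o, q1, p, j, e, h6, h7, h8⟩
    · exact ⟨[], _, Z.base.init, Z.start, hJ0, rfl, .nil _ _, h⟩
    · refine ⟨w1 ++ o.toList, w2, p, j, hJ _ h7, by rw [e, List.append_assoc], ?_, h8⟩
      have := ZeroTest.Run.zero h7 (ZeroTest.Run.nil p j)
      rw [List.append_nil] at this
      exact h6.trans' this
  obtain ⟨w3, w4, q, e3, h7, h8⟩ : ∃ w3 w4 q, γ0 ++ (rep y γ ++ δ) = w3 ++ w4 ∧
      Z.base.Run r k w3 q 0 ∧ Z.Run q 0 w4 f 0 := by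
    rcases h3.first_zero with h | ⟨w3, w4, q, e, h9, h10⟩
    · exact ⟨_, [], f, by simp, h, .nil _ _⟩
    · exact ⟨w3, w4, q, e, h9, h10⟩
  exact ⟨p, j, w2, q, w3, hj, ⟨w1, h4, e1.symm⟩, ⟨r, k, h5, h7⟩, ⟨f, hf, w4, h8, e3.symm⟩⟩

/-- Crossing two computations with the same entry. -/
theorem Acc.cross1 {x y x' y' : ℕ} {p : Z.base.State} {j : ℕ} {w2 w3 w3' : List Y}
    {q q' : Z.base.State}
    (H : Acc Z α0 α γ0 γ δ x y p j w2 q w3) (H' : Acc Z α0 α γ0 γ δ x' y' p j w2 q' w3') :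
    Fam α0 α γ0 γ δ x' y ∈ Z.language := by
  obtain ⟨w1, h1, e1⟩ := H'.h1
  obtain ⟨r, k, h2, h3⟩ := H.h2
  obtain ⟨f, hf, w4, h4, e4⟩ := H.h3
  refine ⟨f, hf, ?_⟩
  have h5 := h1.trans' ((ZeroTest.Run.of_base h2).trans' ((ZeroTest.Run.of_base h3).trans' h4))
  rw [e4, ← List.append_assoc, e1] at h5
  simpa [Fam] using h5

/-- Crossing two computations with the same exit. -/
theorem Acc.cross2 {x y x' y' : ℕ} {p p' : Z.base.State} {j j' : ℕ} {w2 w2' w3 : List Y}
    {q : Z.base.State}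
    (H : Acc Z α0 α γ0 γ δ x y p j w2 q w3) (H' : Acc Z α0 α γ0 γ δ x' y' p' j' w2' q w3) :
    Fam α0 α γ0 γ δ x y' ∈ Z.language := by
  obtain ⟨w1, h1, e1⟩ := H.h1
  obtain ⟨r, k, h2, h3⟩ := H.h2
  obtain ⟨f, hf, w4, h4, e4⟩ := H'.h3
  refine ⟨f, hf, ?_⟩
  have h5 := h1.trans' ((ZeroTest.Run.of_base h2).trans' ((ZeroTest.Run.of_base h3).trans' h4))
  rw [e4, ← List.append_assoc, e1] at h5
  simpa [Fam] using h5

theorem suffix_eq {x x' : ℕ} {w1 w1' w2 w2' : List Y} (hxx : x ≤ x')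
    (h : w1 ++ w2 = α0 ++ rep x α) (h' : w1' ++ w2' = α0 ++ rep x' α)
    (hl : w2.length = w2'.length) (hx : w2.length ≤ x * α.length) : w2 = w2' := by
  have e1 : w2 = (rep x α).drop ((rep x α).length - w2.length) := by
    have h1 : w2 <:+ α0 ++ rep x α := ⟨w1, h⟩
    have h2 : rep x α <:+ α0 ++ rep x α := List.suffix_append _ _
    have h3 : w2 <:+ rep x α := List.suffix_of_suffix_length_le h1 h2 (by rw [length_rep]; exact hx)
    exact (List.suffix_iff_eq_drop.1 h3)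
  have e2 : w2' = (rep x α).drop ((rep x α).length - w2'.length) := by
    have h1 : w2' <:+ α0 ++ rep x' α := ⟨w1', h'⟩
    have h2 : rep x α <:+ α0 ++ rep x' α := by
      refine ⟨α0 ++ rep (x' - x) α, ?_⟩
      rw [List.append_assoc, ← rep_add, Nat.sub_add_cancel hxx]
    have h3 : w2' <:+ rep x α :=
      List.suffix_of_suffix_length_le h1 h2 (by rw [length_rep, ← hl]; exact hx)
    exact (List.suffix_iff_eq_drop.1 h3)
  rw [e1, e2, hl]

theorem prefix_eq {y y' : ℕ} {w3 w3' w4 w4' : List Y} (hyy : y ≤ y')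
    (h : w3 ++ w4 = γ0 ++ (rep y γ ++ δ)) (h' : w3' ++ w4' = γ0 ++ (rep y' γ ++ δ))
    (hl : w3.length = w3'.length) (hy : w3.length ≤ y * γ.length) : w3 = w3' := by
  have hp : ∀ z, y ≤ z → γ0 ++ rep y γ <+: γ0 ++ (rep z γ ++ δ) := by
    intro z hz
    refine ⟨rep (z - y) γ ++ δ, ?_⟩
    rw [List.append_assoc, ← List.append_assoc (rep y γ), ← rep_add, Nat.add_sub_cancel' hz]
  have hlen : w3.length ≤ (γ0 ++ rep y γ).length := by
    rw [List.length_append, length_rep]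
    omega
  have h3 : w3 <+: γ0 ++ rep y γ :=
    List.prefix_of_prefix_length_le ⟨w4, h⟩ (hp y le_rfl) hlen
  have h4 : w3' <+: γ0 ++ rep y γ :=
    List.prefix_of_prefix_length_le ⟨w4', h'⟩ (hp y' hyy) (hl ▸ hlen)
  rw [List.prefix_iff_eq_take.1 h3, List.prefix_iff_eq_take.1 h4, hl]

/-- On each line there are computations for which both parts without zero tests are long. -/
theorem exists_long (hT : ZLines Z α0 α γ0 γ δ m) {J : ℕ} (hJ0 : Z.start ≤ J)
    (hJ : ∀ t ∈ Z.ztrans, t.2.2.2 ≤ J) {i : ℕ} (hi : 1 ≤ i) (him : i ≤ m)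
    (hR : Rich Z α0 α γ0 γ δ i) (C : ℕ) :
    ∃ x y p j w2 q w3, y + 1 = i * (x + 1) ∧ j ≤ J ∧
      Acc Z α0 α γ0 γ δ x y p j w2 q w3 ∧ C ≤ w2.length ∧ C ≤ w3.length := by
  have hfin := Z.base.finState
  by_contra hcon
  -- `α` and `γ` are not empty
  obtain ⟨x', y', -, -, h2⟩ := hR 0
  have hα : 0 < α.length := by
    rcases Nat.eq_zero_or_pos α.length with h | h
    · exfalso
      have h1 : α = [] := List.eq_nil_of_length_eq_zero h
      refine hT.no_x (x := x') (y := y') (d := 1) one_pos (fun n => ?_)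
      rw [h1] at h2 ⊢
      simpa [Fam] using h2
    · exact h
  have hγ : 0 < γ.length := by
    rcases Nat.eq_zero_or_pos γ.length with h | h
    · exfalso
      have h1 : γ = [] := List.eq_nil_of_length_eq_zero h
      refine hT.no_y (x := x') (y := y') (e := 1) one_pos (fun n => ?_)
      rw [h1] at h2 ⊢
      simpa [Fam] using h2
    · exact h
  -- a sparse sequence
  choose g Yg hg1 hg2 hg3 using hR
  obtain ⟨X, hX0, hX1⟩ : ∃ B : ℕ → ℕ, B 0 = C ∧ ∀ n, B (n + 1) = m * (g (B n) + 1) + g (B n) + 1 :=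
    ⟨fun n => Nat.rec C (fun _ b => m * (g b + 1) + g b + 1) n, rfl, fun _ => rfl⟩
  have hmono : ∀ a d, X (a + 1) ≤ X (a + 1 + d) := by
    intro a d
    induction d with
    | zero => exact le_rfl
    | succ d ih =>
      have h1 := hX1 (a + 1 + d)
      have h3 := hg1 (X (a + 1 + d))
      rw [show a + 1 + (d + 1) = a + 1 + d + 1 by ring]
      omega
  have hsparse : ∀ a b, a < b → m * (g (X a) + 1) < g (X b) := by
    intro a b hab
    have h1 := hX1 a
    have h3 := hmono a (b - (a + 1))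
    rw [show a + 1 + (b - (a + 1)) = b by omega] at h3
    have h4 := hg1 (X b)
    omega
  have hXC : ∀ n, C ≤ g (X n) := by
    intro n
    have h4 := hg1 (X n)
    rcases Nat.eq_zero_or_pos n with rfl | hn
    · omega
    · have h1 := hsparse 0 n hn
      have h3 := hg1 (X 0)
      have h5 : 1 * (g (X 0) + 1) ≤ m * (g (X 0) + 1) := Nat.mul_le_mul_right _ (by omega)
      omega
  have hXY : ∀ n, g (X n) ≤ Yg (X n) := by
    intro n
    have h1 := hg2 (X n)
    have h3 : 1 * (g (X n) + 1) ≤ i * (g (X n) + 1) := Nat.mul_le_mul_right _ hi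
    omega
  have hex : ∀ n, ∃ p j w2 q w3, j ≤ J ∧ Acc Z α0 α γ0 γ δ (g (X n)) (Yg (X n)) p j w2 q w3 :=
    fun n => exists_acc hJ0 hJ (hg3 _)
  choose p j w2 q w3 hj hacc using hex
  have hlt : ∀ n, (w2 n).length < C ∨ (w3 n).length < C := by
    intro n
    by_contra hc
    push Not at hc
    exact hcon ⟨_, _, p n, j n, w2 n, q n, w3 n, hg2 _, hj n, hacc n, hc.1, hc.2⟩
  classical
  let F : ℕ → (Z.base.State × Fin (J + 1) × Fin (C + 1)) ⊕ (Z.base.State × Fin (C + 1)) :=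
    fun n => if (w2 n).length < C then
      Sum.inl (p n, ⟨j n, Nat.lt_succ_of_le (hj n)⟩, ⟨min (w2 n).length C, by omega⟩)
    else Sum.inr (q n, ⟨min (w3 n).length C, by omega⟩)
  obtain ⟨a, b, hab, he⟩ := Finite.exists_ne_map_eq_of_infinite F
  wlog hlt' : a < b generalizing a b
  · exact this b a hab.symm he.symm (by omega)
  have hYa := hg2 (X a)
  have hYb := hg2 (X b)
  have hsp := hsparse a b hlt'
  have hle : i * (g (X a) + 1) ≤ m * (g (X a) + 1) := Nat.mul_le_mul_right _ him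
  by_cases ha : (w2 a).length < C
  · by_cases hb : (w2 b).length < C
    · have he2 : F a = Sum.inl (p a, ⟨j a, Nat.lt_succ_of_le (hj a)⟩,
          ⟨min (w2 a).length C, by omega⟩) := if_pos ha
      have he3 : F b = Sum.inl (p b, ⟨j b, Nat.lt_succ_of_le (hj b)⟩,
          ⟨min (w2 b).length C, by omega⟩) := if_pos hb
      rw [he2, he3] at he
      simp only [Sum.inl.injEq, Prod.mk.injEq, Fin.mk.injEq] at he
      obtain ⟨e1, e2, e3⟩ := he
      have H := hacc a
      have H' := hacc b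
      obtain ⟨u, -, eu⟩ := H.h1
      obtain ⟨u', -, eu'⟩ := H'.h1
      have hXa : (w2 a).length ≤ g (X a) * α.length := by
        have h1 := hXC a
        have h2 : g (X a) * 1 ≤ g (X a) * α.length := Nat.mul_le_mul_left _ hα
        omega
      have hm : g (X a) + 1 ≤ m * (g (X a) + 1) := Nat.le_mul_of_pos_left _ (by omega)
      have e4 := suffix_eq (by omega) eu eu' (by omega) hXa
      rw [e1, e2, e4] at H
      obtain ⟨i', h1, h2, h3⟩ := hT _ _ (H.cross1 H')
      have h4 : g (X b) + 1 ≤ i' * (g (X b) + 1) := Nat.le_mul_of_pos_left _ h1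
      omega
    · have he2 : F a = Sum.inl _ := if_pos ha
      have he3 : F b = Sum.inr _ := if_neg hb
      rw [he2, he3] at he
      cases he
  · by_cases hb : (w2 b).length < C
    · have he2 : F a = Sum.inr _ := if_neg ha
      have he3 : F b = Sum.inl _ := if_pos hb
      rw [he2, he3] at he
      cases he
    · have he2 : F a = Sum.inr (q a, ⟨min (w3 a).length C, by omega⟩) := if_neg ha
      have he3 : F b = Sum.inr (q b, ⟨min (w3 b).length C, by omega⟩) := if_neg hb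
      rw [he2, he3] at he
      simp only [Sum.inr.injEq, Prod.mk.injEq, Fin.mk.injEq] at he
      obtain ⟨e1, e3⟩ := he
      have hDa := (hlt a).resolve_left ha
      have hDb := (hlt b).resolve_left hb
      have H := hacc a
      have H' := hacc b
      obtain ⟨_, -, u, -, eu⟩ := H.h3
      obtain ⟨_, -, u', -, eu'⟩ := H'.h3
      have h5 : g (X b) + 1 ≤ i * (g (X b) + 1) := Nat.le_mul_of_pos_left _ hi
      have hm : g (X a) + 1 ≤ m * (g (X a) + 1) := Nat.le_mul_of_pos_left _ (by omega)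
      have hYy : (w3 a).length ≤ Yg (X a) * γ.length := by
        have h1 := hXC a
        have h2 := hXY a
        have h3 : Yg (X a) * 1 ≤ Yg (X a) * γ.length := Nat.mul_le_mul_left _ hγ
        omega
      have e4 := prefix_eq (by omega) eu eu' (by omega) hYy
      rw [e1, e4] at H
      obtain ⟨i', h1, h2, h3⟩ := hT _ _ (H.cross2 H')
      have h4 : i' * (g (X a) + 1) ≤ m * (g (X a) + 1) := Nat.mul_le_mul_right _ h2
      omega

/-- Accepting computation with an ascending and a descending cycle and no zero test in between, on a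
line of slope `i`. -/
def ZData (Z : ZeroTest Y) (α0 α γ0 γ δ : List Y) (i : ℕ) (p r : Z.base.State) : Prop :=
  ∃ k g d l g' e x1 x2 y1 y2 f, 0 < g ∧ 0 < g' ∧ 0 < d ∧ 0 < e ∧ f ∈ Z.base.accept ∧
    Z.Run Z.base.init Z.start (α0 ++ rep x1 α) p k ∧ Z.base.Run p k (rep d α) p (k + g) ∧
    Z.base.Run p (k + g) (rep x2 α ++ (γ0 ++ rep y1 γ)) r (l + g') ∧
    Z.base.Run r (l + g') (rep e γ) r l ∧ Z.Run r l (rep y2 γ ++ δ) f 0 ∧
    y1 + e + y2 + 1 = i * (x1 + d + x2 + 1)

theorem exists_zdata (hT : ZLines Z α0 α γ0 γ δ m) {i : ℕ} (hi : 1 ≤ i) (him : i ≤ m)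
    (hR : Rich Z α0 α γ0 γ δ i) : ∃ p r, ZData Z α0 α γ0 γ δ i p r := by
  obtain ⟨J, hJ0, hJ⟩ := exists_zbound Z
  choose X0 hX0 using fun w => up_cycle Z.base w α J
  choose Y0 hY0 using fun w => down_cycle Z.base w γ
  obtain ⟨B1, hB1⟩ := exists_bound (α0.tails ++ α.tails) (fun s => s.length + X0 s * α.length)
  obtain ⟨B2, hB2⟩ := exists_bound (γ.inits ++ δ.inits)
    (fun s => γ0.length + s.length + Y0 s * γ.length)
  obtain ⟨x, y, p, j, w2, q, w3, hxy, hj, H, hw2, hw3⟩ :=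
    exists_long hT hJ0 hJ hi him hR (B1 + B2 + 1)
  obtain ⟨w1, h1, e1⟩ := H.h1
  obtain ⟨r, k, h2, h3⟩ := H.h2
  obtain ⟨f, hf, w4, h5, e3⟩ := H.h3
  -- the form of `w2`
  obtain ⟨s, x2, hx2, rfl, e2, h6⟩ := suffix_rep α0 α x w1 w2 e1.symm
  have hs : s ∈ α0.tails ++ α.tails := by
    rw [List.mem_append, List.mem_tails, List.mem_tails]
    exact h6.imp And.right And.right
  have hX2 : X0 s ≤ x2 := by
    have h7 := hB1 s hs
    rw [List.length_append, length_rep] at hw2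
    have h8 : X0 s * α.length < x2 * α.length := by omega
    exact (Nat.lt_of_mul_lt_mul_right h8).le
  -- the form of `w3`
  obtain ⟨c, hc1, hc2⟩ : ∃ c, w3 = γ0 ++ c ∧ rep y γ ++ δ = c ++ w4 := by
    rcases List.append_eq_append_iff.1 e3 with ⟨c, h7, h8⟩ | ⟨c, h7, h8⟩
    · -- `γ0 = w3 ++ c`
      exfalso
      have h9 := hB2 [] (by simp)
      have h10 : γ0.length = w3.length + c.length := by rw [h7, List.length_append]
      simp only [List.length_nil] at h9
      have h11 : 0 ≤ Y0 [] * γ.length := Nat.zero_le _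
      omega
    · exact ⟨c, h7, h8⟩
  obtain ⟨y1, t, hy1, rfl, e4, h7⟩ := prefix_rep γ δ w4 y c hc2
  have ht : t ∈ γ.inits ++ δ.inits := by
    rw [List.mem_append, List.mem_inits, List.mem_inits]
    exact h7
  have hY1 : Y0 t ≤ y1 := by
    have h8 := hB2 t ht
    rw [hc1, List.length_append, List.length_append, length_rep] at hw3
    have h9 : Y0 t * γ.length < y1 * γ.length := by omega
    exact (Nat.lt_of_mul_lt_mul_right h9).le
  -- the ascending cycle
  obtain ⟨c0, k0, h8, h9⟩ := h2.split s (rep x2 α) rfl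
  obtain ⟨v, a, rfl, rfl, h10, h11⟩ := Run.rep_seq x2 h9
  have hup : ∃ i j, i < j ∧ j ≤ x2 ∧ v i = v j ∧ a i < a j := by
    rcases hX0 s p j hj x2 hX2 v a h8 h11 with h | ⟨d, hd, h⟩
    · exact h
    · exfalso
      refine hT.no_x (x := x) (y := y) (d := d) hd (fun n => ⟨f, hf, ?_⟩)
      have h12 := h1.trans' ((ZeroTest.Run.of_base (h n)).trans' ((ZeroTest.Run.of_base h10).trans'
        ((ZeroTest.Run.of_base h3).trans' h5)))
      have e : w1 ++ (s ++ rep (x2 + n * d) α ++ ([] ++ (w3 ++ w4))) =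
          Fam α0 α γ0 γ δ (x + n * d) y := by
        rw [List.nil_append, List.append_assoc s, ← List.append_assoc w1, e2, e3,
          List.append_assoc, rep_append, show x - x2 + (x2 + n * d) = x + n * d by omega]
        rfl
      rwa [e] at h12
  -- the descending cycle
  rw [hc1] at h3
  obtain ⟨c1, k1, h12, h13⟩ := h3.split γ0 _ rfl
  obtain ⟨c2, k2, h14, h15⟩ := h13.split (rep y1 γ) t rfl
  obtain ⟨v', a', rfl, rfl, h16, h17⟩ := Run.rep_seq y1 h14
  have h15' : Z.base.Run (v' y1) (a' y1) t q 0 := by simpa using h16.trans' h15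
  have hdown : ∃ i j, i < j ∧ j ≤ y1 ∧ v' i = v' j ∧ a' j < a' i := by
    rcases hY0 t q y1 hY1 v' a' h17 h15' with h | ⟨e, he, h⟩
    · exact h
    · exfalso
      refine hT.no_y (x := x) (y := y) (e := e) he (fun n => ⟨f, hf, ?_⟩)
      have h18 := h1.trans' ((ZeroTest.Run.of_base h2).trans' ((ZeroTest.Run.of_base h12).trans'
        ((ZeroTest.Run.of_base (h n)).trans' h5)))
      have e' : w1 ++ (s ++ rep x2 α ++ (γ0 ++ (rep (y1 + n * e) γ ++ t ++ w4))) =
          Fam α0 α γ0 γ δ x (y + n * e) := by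
        rw [List.append_assoc (rep (y1 + n * e) γ), e4, List.append_assoc s,
          ← List.append_assoc w1, e2, List.append_assoc, rep_append, rep_append,
          show x - x2 + x2 = x by omega, show y1 + n * e + (y - y1) = y + n * e by omega]
        rfl
      rwa [e'] at h18
  obtain ⟨i1, j1, a1, a2, a3, a4⟩ := hup
  obtain ⟨i2, j2, b1, b2, b3, b4⟩ := hdown
  have s1 := chain_run h11 0 i1 (by omega)
  have s2 := chain_run h11 i1 (j1 - i1) (by omega)
  have s3 := chain_run h11 j1 (x2 - j1) (by omega)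
  rw [show i1 + (j1 - i1) = j1 by omega] at s2
  rw [show j1 + (x2 - j1) = x2 by omega] at s3
  rw [show 0 + i1 = i1 by omega] at s1
  have t1 := chain_run h17 0 i2 (by omega)
  have t2 := chain_run h17 i2 (j2 - i2) (by omega)
  have t3 := chain_run h17 j2 (y1 - j2) (by omega)
  rw [show i2 + (j2 - i2) = j2 by omega] at t2
  rw [show j2 + (y1 - j2) = y1 by omega] at t3
  rw [show 0 + i2 = i2 by omega] at t1
  obtain ⟨g, hg⟩ : ∃ g, a j1 = a i1 + g := ⟨a j1 - a i1, by omega⟩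
  obtain ⟨g', hg'⟩ : ∃ g', a' i2 = a' j2 + g' := ⟨a' i2 - a' j2, by omega⟩
  rw [← a3, hg] at s2 s3
  rw [hg'] at t1 t2
  rw [← b3] at t2 t3
  have r1 : Z.Run Z.base.init Z.start (α0 ++ rep (x - x2 + i1) α) (v i1) (a i1) := by
    have := h1.trans' ((ZeroTest.Run.of_base h8).trans' (ZeroTest.Run.of_base s1))
    rwa [← List.append_assoc, e2, List.append_assoc, ← rep_add] at this
  have r2 : Z.base.Run (v i1) (a i1 + g) (rep (x2 - j1) α ++ (γ0 ++ rep i2 γ)) (v' i2)
      (a' j2 + g') := by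
    have := s3.trans' (h10.trans' (h12.trans' t1))
    rwa [List.nil_append] at this
  have r3 : Z.Run (v' i2) (a' j2) (rep (y1 - j2 + (y - y1)) γ ++ δ) f 0 := by
    have := (ZeroTest.Run.of_base t3).trans' ((ZeroTest.Run.of_base h15').trans' h5)
    rwa [e4, rep_append] at this
  refine ⟨v i1, v' i2, a i1, g, j1 - i1, a' j2, g', j2 - i2, x - x2 + i1, x2 - j1, i2,
    y1 - j2 + (y - y1), f, by omega, by omega, by omega, by omega, hf, r1, s2, r2, t2, r3, ?_⟩
  have e6 : i2 + (j2 - i2) + (y1 - j2 + (y - y1)) + 1 = y + 1 := by omega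
  have e7 : x - x2 + i1 + (j1 - i1) + (x2 - j1) + 1 = x + 1 := by omega
  rw [e6, e7, hxy]

end Pool.Agent.H90.ZT
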