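import Pool.Agent.H90.ZT.Main

/-!
# The number of lines
-/

set_option autoImplicit false

namespace Pool.Agent.H90.ZT

open Pool.Agent.Results.MP_773080_lc.RocNotGPrincipal
open Pool.Agent.Results.MP_773080_lc.RocNotGPrincipal.OneCounter

variable {Y : Type} {Z : ZeroTest Y} {α0 α γ0 γ δ : List Y} {m : ℕ}

/-- Pumping an ascending and a later descending cycle, with no zero test in between. -/
theorem zpump {s p r f : Z.base.State} {k l g g' : ℕ} {w1 u w2 v w3 : List Y} {h0 hf : ℕ}
    (h1 : Z.Run s h0 w1 p k) (h2 : Z.base.Run p k u p (k + g))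
    (h3 : Z.base.Run p (k + g) w2 r (l + g'))
    (h4 : Z.base.Run r (l + g') v r l) (h5 : Z.Run r l w3 f hf) (n : ℕ) :
    Z.Run s h0 (w1 ++ (u ++ (rep (n * g') u ++ (w2 ++ (v ++ (rep (n * g) v ++ w3)))))) f hf := by
  have h6 := pump (Run.nil p k) h2 h3 h4 (Run.nil r l) n
  have h7 := h1.trans' ((ZeroTest.Run.of_base h6).trans' h5)
  simpa only [List.nil_append, List.append_nil, List.append_assoc] using h7

theorem ZData.slope (hT : ZLines Z α0 α γ0 γ δ m) {i : ℕ} {p r : Z.base.State}
    {k g d l g' e x1 x2 y1 y2 : ℕ} {f : Z.base.State} (hf : f ∈ Z.base.accept)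
    (h1 : Z.Run Z.base.init Z.start (α0 ++ rep x1 α) p k) (h2 : Z.base.Run p k (rep d α) p (k + g))
    (h3 : Z.base.Run p (k + g) (rep x2 α ++ (γ0 ++ rep y1 γ)) r (l + g'))
    (h4 : Z.base.Run r (l + g') (rep e γ) r l) (h5 : Z.Run r l (rep y2 γ ++ δ) f 0)
    (h6 : y1 + e + y2 + 1 = i * (x1 + d + x2 + 1)) : g * e = i * (g' * d) := by
  obtain ⟨j, hj1, hj2⟩ := lin (m := m) (P := i * (x1 + d + x2 + 1)) (Q := g * e)
    (R := x1 + d + x2 + 1) (S := g' * d) (by
    intro n
    have r5 := zpump h1 h2 h3 h4 h5 n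
    have e1 : α0 ++ rep x1 α ++ (rep d α ++ (rep (n * g') (rep d α) ++ (rep x2 α ++
        (γ0 ++ rep y1 γ) ++ (rep e γ ++ (rep (n * g) (rep e γ) ++ (rep y2 γ ++ δ)))))) =
        Fam α0 α γ0 γ δ (x1 + d + x2 + n * (g' * d)) (y1 + e + y2 + n * (g * e)) := by
      have a1 : x1 + d + x2 + n * (g' * d) = x1 + (d + (n * g' * d + x2)) := by ring
      have a2 : y1 + e + y2 + n * (g * e) = y1 + (e + (n * g * e + y2)) := by ring
      rw [a1, a2]
      simp only [Fam, rep_add, rep_rep, List.append_assoc]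
    rw [e1] at r5
    obtain ⟨j, hj1, hj2, hj3⟩ := hT _ _ ⟨f, hf, r5⟩
    refine ⟨j, hj1, hj2, ?_⟩
    rw [← h6]
    have a3 : x1 + d + x2 + n * (g' * d) + 1 = x1 + d + x2 + 1 + n * (g' * d) := by ring
    rw [← a3, ← hj3]
    ring)
  have : i = j := Nat.eq_of_mul_eq_mul_right (by omega) hj2
  rw [hj1, this]

/-- The pair of states determines the slope. -/
theorem ZData.unique (hT : ZLines Z α0 α γ0 γ δ m) {i i' : ℕ} {p r : Z.base.State}
    (H : ZData Z α0 α γ0 γ δ i p r) (H' : ZData Z α0 α γ0 γ δ i' p r) : i = i' := by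
  obtain ⟨k, g, d, l, g', e, x1, x2, y1, y2, f, hg, hg', hd, he, hf, h1, h2, h3, h4, h5, h6⟩ := H
  have hs := ZData.slope hT hf h1 h2 h3 h4 h5 h6
  obtain ⟨k', b, d', l', b', e', z1, z2, w1, w2, f', hb, hb', hd', he', hf', h1', h2', h3', h4',
    h5', h6'⟩ := H'
  have hs' := ZData.slope hT hf' h1' h2' h3' h4' h5' h6'
  obtain ⟨K, hK⟩ : ∃ K, K = k' + l' := ⟨_, rfl⟩
  have hKg : K ≤ K * g' * g := by
    have : K * 1 ≤ K * (g' * g) := Nat.mul_le_mul_left _ (Nat.mul_pos hg' hg)
    rw [Nat.mul_assoc]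
    omega
  obtain ⟨j, hj1, hj2⟩ := lin (m := m) (P := i * (x1 + d + x2 + 1 + K * (g' * d)))
    (Q := i' * (b' * d')) (R := x1 + d + x2 + 1 + K * (g' * d)) (S := b' * d') (by
    intro n
    have c1 := h1.trans' (ZeroTest.Run.of_base h2)
    have c2 : Z.base.Run p (k + g) (rep (K * g') (rep d α)) p (k + g + K * g' * g) :=
      (h2.shift g : Z.base.Run p (k + g) (rep d α) p (k + g + g)).iter_up _
    have c3 : Z.base.Run p (k + g + K * g' * g) (rep (n * b') (rep d' α)) p
        (k + g + K * g' * g + n * b' * b) := by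
      have := h2'.shift (k + g + K * g' * g - k')
      rw [show k' + (k + g + K * g' * g - k') = k + g + K * g' * g by omega,
        show k' + b + (k + g + K * g' * g - k') = k + g + K * g' * g + b by omega] at this
      exact this.iter_up _
    have c4 := h3.shift (K * g' * g + n * b' * b)
    rw [← Nat.add_assoc (k + g), show l + g' + (K * g' * g + n * b' * b) =
      (l + g' + K * g' * g) + n * b * b' by ring] at c4
    have c5 : Z.base.Run r ((l + g' + K * g' * g) + n * b * b') (rep (n * b) (rep e' γ)) r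
        (l + g' + K * g' * g) := by
      have := h4'.shift (l + g' + K * g' * g - l')
      rw [show l' + (l + g' + K * g' * g - l') = l + g' + K * g' * g by omega,
        show l' + b' + (l + g' + K * g' * g - l') = l + g' + K * g' * g + b' by omega] at this
      exact this.iter_down _
    have c6 := h4.shift (K * g' * g)
    have c7 : Z.base.Run r (l + K * g' * g) (rep (K * g) (rep e γ)) r l := by
      have := h4.iter_down (K * g)
      rwa [show l + K * g * g' = l + K * g' * g by ring] at this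
    have c8 := c2.trans' (c3.trans' (c4.trans' (c5.trans' (c6.trans' c7))))
    have r5 := c1.trans' ((ZeroTest.Run.of_base c8).trans' h5)
    have e1 : α0 ++ rep x1 α ++ rep d α ++ ((rep (K * g') (rep d α) ++ (rep (n * b') (rep d' α) ++
        (rep x2 α ++ (γ0 ++ rep y1 γ) ++ (rep (n * b) (rep e' γ) ++ (rep e γ ++
          rep (K * g) (rep e γ)))))) ++ (rep y2 γ ++ δ)) =
        Fam α0 α γ0 γ δ (x1 + d + x2 + K * (g' * d) + n * (b' * d'))
          (y1 + e + y2 + K * (g * e) + n * (b * e')) := by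
      have a1 : x1 + d + x2 + K * (g' * d) + n * (b' * d') =
        x1 + (d + (K * g' * d + (n * b' * d' + x2))) := by ring
      have a2 : y1 + e + y2 + K * (g * e) + n * (b * e') =
        y1 + (n * b * e' + (e + (K * g * e + y2))) := by ring
      rw [a1, a2]
      simp only [Fam, rep_add, rep_rep, List.append_assoc]
    rw [e1] at r5
    obtain ⟨j, hj1, hj2, hj3⟩ := hT _ _ ⟨f, hf, r5⟩
    refine ⟨j, hj1, hj2, ?_⟩
    have a3 : x1 + d + x2 + 1 + K * (g' * d) + n * (b' * d') =
      x1 + d + x2 + K * (g' * d) + n * (b' * d') + 1 := by ring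
    have a4 : i * (x1 + d + x2 + 1 + K * (g' * d)) = i * (x1 + d + x2 + 1) +
      K * (i * (g' * d)) := by ring
    rw [a3, ← hj3, a4, ← h6, ← hs, ← hs']
    ring)
  have hij : i = j := Nat.eq_of_mul_eq_mul_right (by omega) hj2
  have hij' : i' = j := Nat.eq_of_mul_eq_mul_right (Nat.mul_pos hb' hd') hj1
  rw [hij, hij']

/-- The number of lines with infinitely many accepted words is at most the square of the number of
states. -/
theorem ZLines.card_le (hT : ZLines Z α0 α γ0 γ δ m) (I : Finset ℕ)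
    (hI : ∀ i ∈ I, 1 ≤ i ∧ i ≤ m ∧ Rich Z α0 α γ0 γ δ i) :
    I.card ≤ Nat.card Z.base.State ^ 2 := by
  have := Z.base.finState
  have h : ∀ i : I, ∃ q : Z.base.State × Z.base.State,
      ZData Z α0 α γ0 γ δ i q.1 q.2 := by
    intro i
    obtain ⟨h1, h2, h3⟩ := hI i i.2
    obtain ⟨p, r, h⟩ := exists_zdata hT h1 h2 h3
    exact ⟨(p, r), h⟩
  choose q hq using h
  have hinj : Function.Injective q := by
    intro i j hij
    have h1 := hq i
    rw [hij] at h1
    exact Subtype.ext (h1.unique hT (hq j))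
  have := Nat.card_le_card_of_injective _ hinj
  rwa [Nat.card_prod, Nat.card_eq_fintype_card, Fintype.card_coe, ← pow_two] at this

end Pool.Agent.H90.ZT
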